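import Mathlib

/-! Local embeddings, balls, LEF growth; words in two generators. -/

set_option autoImplicit false

namespace Pool.Agent.P8H61.LG

/-- `π` restricts to a local embedding of `F`: it is injective on `F` and multiplicative whenever
`g`, `h` and `g h` are in `F`. -/
def LocEmb {Γ Q : Type} [Group Γ] [Group Q] (F : Set Γ) (π : Γ → Q) : Prop :=
  Set.InjOn π F ∧ ∀ g ∈ F, ∀ h ∈ F, g * h ∈ F → π (g * h) = π g * π h

/-- The closed ball of radius `n` in the word metric of `S`. -/
def ball {Γ : Type} [Group Γ] (S : Set Γ) (n : ℕ) : Set Γ :=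
  {g | ∃ l : List Γ, (∀ x ∈ l, x ∈ S ∨ x⁻¹ ∈ S) ∧ l.length ≤ n ∧ l.prod = g}

/-- The LEF growth. -/
noncomputable def gr {Γ : Type} [Group Γ] (S : Set Γ) (n : ℕ) : ℕ :=
  sInf {q | ∃ (Q : Type) (_ : Group Q) (_ : Finite Q) (π : Γ → Q),
    Nat.card Q = q ∧ LocEmb (ball S n) π}

section ball

variable {Γ : Type} [Group Γ] {S T : Set Γ}

theorem ball_mono {m n : ℕ} (h : m ≤ n) : ball S m ⊆ ball S n := by
  rintro g ⟨l, h1, h2, h3⟩
  exact ⟨l, h1, h2.trans h, h3⟩

theorem one_mem_ball (n : ℕ) : (1 : Γ) ∈ ball S n := ⟨[], by simp, by simp, by simp⟩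

theorem mul_mem_ball {m n : ℕ} {g h : Γ} (hg : g ∈ ball S m) (hh : h ∈ ball S n) :
    g * h ∈ ball S (m + n) := by
  obtain ⟨l, h1, h2, h3⟩ := hg
  obtain ⟨l', h1', h2', h3'⟩ := hh
  refine ⟨l ++ l', ?_, by simp; omega, by simp [h3, h3']⟩
  intro x hx
  rcases List.mem_append.1 hx with h | h
  · exact h1 x h
  · exact h1' x h

theorem inv_mem_ball {n : ℕ} {g : Γ} (hg : g ∈ ball S n) : g⁻¹ ∈ ball S n := by
  obtain ⟨l, h1, h2, h3⟩ := hg
  refine ⟨(l.map (·⁻¹)).reverse, ?_, by simpa using h2, ?_⟩
  · intro x hx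
    simp only [List.mem_reverse, List.mem_map] at hx
    obtain ⟨y, hy, rfl⟩ := hx
    rcases h1 y hy with h | h
    · exact Or.inr (by simpa using h)
    · exact Or.inl h
  · rw [← h3, List.prod_inv_reverse]

theorem mem_ball_one {g : Γ} (hg : g ∈ S) : g ∈ ball S 1 :=
  ⟨[g], by simp [hg], by simp, by simp⟩

theorem pow_mem_ball {g : Γ} {c : ℕ} (hg : g ∈ ball S c) (k : ℕ) : g ^ k ∈ ball S (c * k) := by
  induction k with
  | zero => simpa using one_mem_ball (S := S) 0
  | succ k ih =>
    rw [pow_succ, Nat.mul_succ]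
    exact mul_mem_ball ih hg

/-- every element is in a ball -/
theorem exists_mem_ball (hS : Subgroup.closure S = ⊤) (g : Γ) : ∃ n, g ∈ ball S n := by
  have hg : g ∈ Subgroup.closure S := by rw [hS]; trivial
  induction hg using Subgroup.closure_induction with
  | mem x hx => exact ⟨1, mem_ball_one hx⟩
  | one => exact ⟨0, one_mem_ball 0⟩
  | mul x y _ _ hx hy =>
    obtain ⟨m, hm⟩ := hx
    obtain ⟨n, hn⟩ := hy
    exact ⟨m + n, mul_mem_ball hm hn⟩
  | inv x _ hx =>
    obtain ⟨m, hm⟩ := hx
    exact ⟨m, inv_mem_ball hm⟩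

theorem exists_subset_ball (hS : Subgroup.closure S = ⊤) {F : Set Γ} (hF : F.Finite) :
    ∃ n, F ⊆ ball S n := by
  choose f hf using exists_mem_ball hS
  obtain ⟨n, hn⟩ := (hF.image f).bddAbove
  refine ⟨n, fun g hg => ball_mono (hn ⟨g, hg, rfl⟩) (hf g)⟩

/-- change of generators -/
theorem ball_subset_ball (hS : S.Finite) (hT : Subgroup.closure T = ⊤) :
    ∃ k, 0 < k ∧ ∀ n, ball S n ⊆ ball T (k * n) := by
  obtain ⟨k, hk⟩ := exists_subset_ball hT hS
  refine ⟨k + 1, Nat.succ_pos _, ?_⟩
  intro n g hg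
  obtain ⟨l, h1, h2, h3⟩ := hg
  have key : ∀ l : List Γ, (∀ x ∈ l, x ∈ S ∨ x⁻¹ ∈ S) → l.prod ∈ ball T ((k + 1) * l.length) := by
    intro l
    induction l with
    | nil => intro _; simpa using one_mem_ball (S := T) 0
    | cons x l ih =>
      intro h
      have hx : x ∈ ball T (k + 1) := by
        rcases h x (by simp) with h' | h'
        · exact ball_mono (Nat.le_succ k) (hk h')
        · have := inv_mem_ball (ball_mono (Nat.le_succ k) (hk h'))
          simpa using this
      have hl := ih (fun y hy => h y (by simp [hy]))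
      have := mul_mem_ball hx hl
      rw [List.prod_cons, List.length_cons]
      have e : (k + 1) * (l.length + 1) = (k + 1) + (k + 1) * l.length := by ring
      rw [e]
      exact this
  rw [← h3]
  exact ball_mono (Nat.mul_le_mul_left _ h2) (key l h1)

end ball

section growth

variable {Γ : Type} [Group Γ] {S T : Set Γ}

theorem LocEmb.mono {Q : Type} [Group Q] {F F' : Set Γ} {π : Γ → Q} (h : LocEmb F' π)
    (hF : F ⊆ F') : LocEmb F π :=
  ⟨h.1.mono hF, fun g hg k hk hgk => h.2 g (hF hg) k (hF hk) (hF hgk)⟩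

/-- the LEF property along balls -/
def BallLEF (S : Set Γ) : Prop :=
  ∀ n, ∃ (Q : Type) (_ : Group Q) (_ : Finite Q) (π : Γ → Q), LocEmb (ball S n) π

theorem gr_spec (h : BallLEF S) (n : ℕ) : ∃ (Q : Type) (_ : Group Q) (_ : Finite Q) (π : Γ → Q),
    Nat.card Q = gr S n ∧ LocEmb (ball S n) π := by
  have hne : {q | ∃ (Q : Type) (_ : Group Q) (_ : Finite Q) (π : Γ → Q),
      Nat.card Q = q ∧ LocEmb (ball S n) π}.Nonempty := by
    obtain ⟨Q, i1, i2, π, hπ⟩ := h n
    exact ⟨Nat.card Q, Q, i1, i2, π, rfl, hπ⟩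
  exact Nat.sInf_mem hne

theorem gr_le {n : ℕ} (Q : Type) [Group Q] [Finite Q] (π : Γ → Q) (h : LocEmb (ball S n) π) :
    gr S n ≤ Nat.card Q :=
  Nat.sInf_le ⟨Q, inferInstance, inferInstance, π, rfl, h⟩

theorem gr_le_gr (hT : BallLEF T) {m n : ℕ} (h : ball S m ⊆ ball T n) : gr S m ≤ gr T n := by
  obtain ⟨Q, i1, i2, π, h1, h2⟩ := gr_spec hT n
  rw [← h1]
  exact gr_le Q π (h2.mono h)

theorem BallLEF.change (hS : S.Finite) (hT : Subgroup.closure T = ⊤) (h : BallLEF T) :
    BallLEF S := by
  obtain ⟨k, _, hk⟩ := ball_subset_ball hS hT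
  intro n
  obtain ⟨Q, i1, i2, π, hπ⟩ := h (k * n)
  exact ⟨Q, i1, i2, π, hπ.mono (hk n)⟩

end growth

/-! ### the pairing lemma -/

theorem card_of_pairing {Q J : Type} [Group Q] [Finite Q] [DecidableEq J] (e f : J → Q)
    (h1 : ∀ i j, i ≠ j → f i * e j = e j * f i) (h2 : ∀ j, f j * e j ≠ e j * f j)
    (T : Finset J) : 2 ^ T.card ≤ Nat.card (Subgroup.closure (e '' (T : Set J))) := by
  induction T using Finset.induction with
  | empty => simp
  | insert j T hj ih =>
    set H := Subgroup.closure (e '' (T : Set J)) with hH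
    set K := Subgroup.closure (e '' ((insert j T : Finset J) : Set J)) with hK
    have hHK : H ≤ K := Subgroup.closure_mono (Set.image_mono (by simp))
    have hjK : e j ∈ K := Subgroup.subset_closure ⟨j, by simp, rfl⟩
    have hjH : e j ∉ H := by
      intro h
      have hc : H ≤ Subgroup.centralizer {f j} := by
        rw [hH, Subgroup.closure_le]
        rintro _ ⟨i, hi, rfl⟩
        have hij : j ≠ i := by
          rintro rfl
          exact hj hi
        simp only [SetLike.mem_coe, Subgroup.mem_centralizer_iff, Set.mem_singleton_iff,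
          forall_eq]
        exact h1 j i hij
      have := hc h
      simp only [Subgroup.mem_centralizer_iff, Set.mem_singleton_iff, forall_eq] at this
      exact h2 j this
    obtain ⟨c, hc⟩ := Subgroup.card_dvd_of_le hHK
    have hHpos : 0 < Nat.card H := Nat.card_pos
    have hKpos : 0 < Nat.card K := Nat.card_pos
    have hc2 : 2 ≤ c := by
      rcases Nat.lt_or_ge c 2 with h | h
      · exfalso
        interval_cases c
        · omega
        · have : Nat.card K ≤ Nat.card H := by omega
          have hEq : H = K := Subgroup.eq_of_le_of_card_ge hHK this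
          exact hjH (hEq ▸ hjK)
      · exact h
    rw [Finset.card_insert_of_notMem hj, pow_succ, hc]
    exact Nat.mul_le_mul ih hc2

theorem card_ge_of_pairing {Q J : Type} [Group Q] [Finite Q] [Fintype J] (e f : J → Q)
    (h1 : ∀ i j, i ≠ j → f i * e j = e j * f i) (h2 : ∀ j, f j * e j ≠ e j * f j) :
    2 ^ Fintype.card J ≤ Nat.card Q := by
  classical
  refine (card_of_pairing e f h1 h2 Finset.univ).trans ?_
  exact Subgroup.card_le_card_group _

/-- lower bound for the LEF growth from a pairing in the ball -/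
theorem gr_ge_of_pairing {Γ J : Type} [Group Γ] [Fintype J] {S : Set Γ} (hS : BallLEF S) {n : ℕ}
    (e f : J → Γ) (he : ∀ j, e j ∈ ball S n) (hf : ∀ j, f j ∈ ball S n)
    (h1 : ∀ i j, i ≠ j → f i * e j = e j * f i) (h2 : ∀ j, f j * e j ≠ e j * f j) :
    2 ^ Fintype.card J ≤ gr S (n + n) := by
  obtain ⟨Q, i1, i2, π, hq, hinj, hmul⟩ := gr_spec hS (n + n)
  rw [← hq]
  have hb : ∀ x ∈ ball S n, x ∈ ball S (n + n) := fun x hx => ball_mono (by omega) hx
  have hfe : ∀ i j, π (f i * e j) = π (f i) * π (e j) := fun i j =>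
    hmul _ (hb _ (hf i)) _ (hb _ (he j)) (mul_mem_ball (hf i) (he j))
  have hef : ∀ i j, π (e j * f i) = π (e j) * π (f i) := fun i j =>
    hmul _ (hb _ (he j)) _ (hb _ (hf i)) (mul_mem_ball (he j) (hf i))
  refine card_ge_of_pairing (fun j => π (e j)) (fun j => π (f j)) ?_ ?_
  · intro i j hij
    rw [← hfe, ← hef, h1 i j hij]
  · intro j h
    rw [← hfe, ← hef] at h
    exact h2 j (hinj (mul_mem_ball (hf j) (he j)) (mul_mem_ball (he j) (hf j)) h)

/-! ### words -/

/-- letters: `A` is an involution, `C` is the inverse of `B` -/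
inductive Lt
  | A | B | C

/-- value of a letter -/
def ev {H : Type} [Group H] (α β : H) : Lt → H
  | .A => α
  | .B => β
  | .C => β⁻¹

/-- value of a word -/
def evw {H : Type} [Group H] (α β : H) (w : List Lt) : H := (w.map (ev α β)).prod

/-- inverse letter -/
def il : Lt → Lt
  | .A => .A
  | .B => .C
  | .C => .B

/-- inverse word -/
def iw (w : List Lt) : List Lt := (w.map il).reverse

section words

variable {H K : Type} [Group H] [Group K]

@[simp] theorem evw_nil (α β : H) : evw α β [] = 1 := rfl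

@[simp] theorem evw_cons (α β : H) (l : Lt) (w : List Lt) :
    evw α β (l :: w) = ev α β l * evw α β w := by simp [evw]

theorem evw_append (α β : H) (v w : List Lt) : evw α β (v ++ w) = evw α β v * evw α β w := by
  simp [evw]

theorem ev_il {α : H} (hα : α * α = 1) (β : H) (l : Lt) : ev α β (il l) = (ev α β l)⁻¹ := by
  cases l
  · exact (inv_eq_of_mul_eq_one_right hα).symm
  · rfl
  · exact (inv_inv β).symm

theorem evw_iw {α : H} (hα : α * α = 1) (β : H) (w : List Lt) :
    evw α β (iw w) = (evw α β w)⁻¹ := by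
  induction w with
  | nil => simp [iw, evw]
  | cons l w ih =>
    have : iw (l :: w) = iw w ++ [il l] := by simp [iw]
    rw [this, evw_append, ih, evw_cons α β l w, mul_inv_rev, evw_cons, evw_nil, mul_one,
      ev_il hα]

@[simp] theorem length_iw (w : List Lt) : (iw w).length = w.length := by simp [iw]

theorem map_ev (φ : H →* K) (α β : H) (l : Lt) : φ (ev α β l) = ev (φ α) (φ β) l := by
  cases l <;> simp [ev]

theorem map_evw (φ : H →* K) (α β : H) (w : List Lt) : φ (evw α β w) = evw (φ α) (φ β) w := by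
  induction w with
  | nil => simp
  | cons l w ih => simp [ih, map_ev]

theorem mem_ball_iff_word {Γ : Type} [Group Γ] {a b : Γ} (ha : a * a = 1) {n : ℕ} {g : Γ}
    (hg : g ∈ ball {a, b} n) : ∃ w : List Lt, w.length ≤ n ∧ evw a b w = g := by
  obtain ⟨l, h1, h2, h3⟩ := hg
  have ha' : a⁻¹ = a := inv_eq_of_mul_eq_one_right ha
  have key : ∀ l : List Γ, (∀ x ∈ l, x ∈ ({a, b} : Set Γ) ∨ x⁻¹ ∈ ({a, b} : Set Γ)) →
      ∃ w : List Lt, w.length ≤ l.length ∧ evw a b w = l.prod := by
    intro l
    induction l with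
    | nil => intro _; exact ⟨[], by simp, by simp⟩
    | cons x l ih =>
      intro h
      obtain ⟨w, hw1, hw2⟩ := ih (fun y hy => h y (by simp [hy]))
      have : ∃ t : Lt, ev a b t = x := by
        rcases h x (by simp) with h' | h'
        · rcases h' with h' | h'
          · exact ⟨.A, h'.symm⟩
          · exact ⟨.B, (Set.mem_singleton_iff.1 h').symm⟩
        · rcases h' with h' | h'
          · refine ⟨.A, ?_⟩
            change a = x
            rw [← ha', ← h', inv_inv]
          · refine ⟨.C, ?_⟩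
            change b⁻¹ = x
            rw [← Set.mem_singleton_iff.1 h', inv_inv]
      obtain ⟨t, ht⟩ := this
      exact ⟨t :: w, by simpa using hw1, by simp [ht, hw2]⟩
  obtain ⟨w, hw1, hw2⟩ := key l h1
  exact ⟨w, hw1.trans h2, hw2.trans h3⟩

/-- a local embedding of a ball from the comparison of the short relations -/
theorem locEmb_of_words {Γ Q : Type} [Group Γ] [Group Q] (a b : Γ) (a' b' : Q) (ha : a * a = 1)
    (ha' : a' * a' = 1) (r : ℕ)
    (h : ∀ w : List Lt, w.length ≤ 3 * r → (evw a b w = 1 ↔ evw a' b' w = 1)) :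
    ∃ π : Γ → Q, LocEmb (ball {a, b} r) π := by
  classical
  have hex : ∀ g : Γ, g ∈ ball {a, b} r → ∃ w : List Lt, w.length ≤ r ∧ evw a b w = g :=
    fun g hg => mem_ball_iff_word ha hg
  let W : Γ → List Lt := fun g => if hg : g ∈ ball {a, b} r then (hex g hg).choose else []
  have hW : ∀ g ∈ ball {a, b} r, (W g).length ≤ r ∧ evw a b (W g) = g := by
    intro g hg
    simp only [W, dif_pos hg]
    exact (hex g hg).choose_spec
  have heq : ∀ u v : List Lt, u.length + v.length ≤ 3 * r →
      (evw a b u = evw a b v ↔ evw a' b' u = evw a' b' v) := by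
    intro u v huv
    have := h (u ++ iw v) (by simpa using huv)
    rw [evw_append, evw_append, evw_iw ha, evw_iw ha', mul_inv_eq_one, mul_inv_eq_one] at this
    exact this
  refine ⟨fun g => evw a' b' (W g), ?_, ?_⟩
  · intro g hg k hk hgk
    have h1 := hW g hg
    have h2 := hW k hk
    have := (heq (W g) (W k) (by omega)).2 hgk
    rw [h1.2, h2.2] at this
    exact this
  · intro g hg k hk hgk
    have h1 := hW g hg
    have h2 := hW k hk
    have h3 := hW _ hgk
    have h4 : evw a b (W (g * k)) = evw a b (W g ++ W k) := by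
      rw [evw_append, h1.2, h2.2, h3.2]
    have h5 := (heq (W (g * k)) (W g ++ W k) (by simp; omega)).1 h4
    simp only
    rw [h5, evw_append]

end words

end Pool.Agent.P8H61.LG
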