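import Pool.Agent.P8H61.LG.Low

/-! An uncountable family with pairwise incomparable LEF growth. -/

set_option autoImplicit false

namespace Pool.Agent.P8H61.LG

open Filter Topology

theorem poly_lt_exp (c : ℕ) : ∃ m₀, ∀ m ≥ m₀, m * (c * m ^ 2) ^ c < 2 ^ m := by
  have h := tendsto_pow_const_div_const_pow_of_one_lt (2 * c + 1) (one_lt_two (α := ℝ))
  have hpos : (0 : ℝ) < 1 / ((c : ℝ) ^ c + 1) := by positivity
  obtain ⟨m₀, hm₀⟩ := eventually_atTop.1 (h.eventually (gt_mem_nhds hpos))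
  refine ⟨m₀, fun m hm => ?_⟩
  have h1 := hm₀ m hm
  rw [div_lt_div_iff₀ (by positivity) (by positivity), one_mul] at h1
  have h2 : ((m * (c * m ^ 2) ^ c : ℕ) : ℝ) < ((2 ^ m : ℕ) : ℝ) := by
    push_cast
    calc (m : ℝ) * ((c : ℝ) * (m : ℝ) ^ 2) ^ c = (m : ℝ) ^ (2 * c + 1) * (c : ℝ) ^ c := by
          rw [mul_pow, ← pow_mul]; ring
      _ ≤ (m : ℝ) ^ (2 * c + 1) * ((c : ℝ) ^ c + 1) := by
          apply mul_le_mul_of_nonneg_left _ (by positivity)
          linarith
      _ < _ := h1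
  exact_mod_cast h2

theorem arith (c : ℕ) : ∃ m₀, ∀ m ≥ m₀, ∀ l A : ℕ, 1 ≤ l → l ≤ m → A ≤ m →
    A * (c * (l * m)).factorial < 2 ^ (m * (l * m)) := by
  obtain ⟨m₀, hm₀⟩ := poly_lt_exp c
  refine ⟨m₀ + 1, fun m hm l A hl hlm hA => ?_⟩
  have h0 := hm₀ m (by omega)
  have hm1 : 1 ≤ m := by omega
  have hlm1 : 1 ≤ l * m := Nat.mul_pos hl hm1
  have h1 : (c * (l * m)).factorial ≤ ((c * m ^ 2) ^ c) ^ (l * m) := by
    calc (c * (l * m)).factorial ≤ (c * (l * m)) ^ (c * (l * m)) := Nat.factorial_le_pow _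
      _ ≤ (c * m ^ 2) ^ (c * (l * m)) := by
          apply Nat.pow_le_pow_left
          apply Nat.mul_le_mul_left
          rw [pow_two]
          exact Nat.mul_le_mul_right _ hlm
      _ = _ := by rw [← pow_mul]
  have h2 : A ≤ m ^ (l * m) := hA.trans (Nat.le_self_pow (by omega) m)
  calc A * (c * (l * m)).factorial ≤ m ^ (l * m) * ((c * m ^ 2) ^ c) ^ (l * m) :=
        Nat.mul_le_mul h2 h1
    _ = (m * (c * m ^ 2) ^ c) ^ (l * m) := (mul_pow _ _ _).symm
    _ < (2 ^ m) ^ (l * m) := Nat.pow_lt_pow_left h0 (by omega)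
    _ = _ := by rw [← pow_mul]

/-- the comparison of the growth of two groups of the family -/
theorem incomparable {S T : Set ℕ} (hS : BallLEF {gA S, gB S}) (hT : ∀ n, ∃ j ∈ T, n < j)
    (hTT : BallLEF {gA T, gB T})
    (h : ∀ n, ∃ i, n ≤ i ∧ i ∈ S ∧ i ∉ T) (K : ℕ) :
    ¬ ∀ n, 1 ≤ n → gr {gA S, gB S} n ≤ gr {gA T, gB T} (K * n) := by
  intro hK
  obtain ⟨m₀, hm₀⟩ := arith (3184 * (K + 1))
  obtain ⟨i, hi, hiS, hiT⟩ := h (max m₀ (6 * (K + 1)))
  have hi1 : m₀ ≤ i := (le_max_left _ _).trans hi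
  have hi2 : 6 * (K + 1) ≤ i := (le_max_right _ _).trans hi
  have hL : 3 ≤ el i * mm i := by
    have a := el_pos i
    have b := mm_ge i
    nlinarith
  have h1 := gr_lower hiS hS
  have h2 := hK (132 * (el i * mm i)) (by omega)
  have h3 : gr {gA T, gB T} (K * (132 * (el i * mm i))) ≤
      gr {gA T, gB T} ((K + 1) * (132 * (el i * mm i))) :=
    gr_le_gr hTT (ball_mono (Nat.mul_le_mul_right _ (Nat.le_succ K)))
  have hNN : NN i = 48 * (el i * mm i) := by unfold NN; ring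
  have h4 := gr_upper T i hiT (hT i) ((K + 1) * (132 * (el i * mm i))) (by
    rw [hNN]
    have : 6 * (K + 1) + 1 ≤ i + 1 := by omega
    have h5 := Nat.mul_le_mul_left (6 * (48 * (el i * mm i))) this
    nlinarith [Nat.mul_le_mul_left (K + 1) hL])
  have h5 : 2 * (4 * (3 * ((K + 1) * (132 * (el i * mm i)))) + 8) ≤
      3184 * (K + 1) * (el i * mm i) := by
    nlinarith [Nat.mul_le_mul_left (K + 1) hL]
  have h6 := hm₀ (mm i) (hi1.trans (le_mm i)) (el i) (Am i) (el_pos i) (el_le_mm i)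
    (Nat.le_add_right _ _)
  have h7 := Nat.mul_le_mul_left (Am i) (Nat.factorial_le h5)
  omega

/-! ### the family of sets -/

/-- the set of the codes of the initial segments of `x` -/
def codes (x : ℕ → Bool) : Set ℕ :=
  Set.range fun n : ℕ => Encodable.encode ((List.range n).map x)

theorem codes_inj (x : ℕ → Bool) :
    Function.Injective fun n : ℕ => Encodable.encode ((List.range n).map x) := by
  intro m n h
  have h1 := Encodable.encode_injective h
  have := congrArg List.length h1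
  simpa using this

theorem codes_unbounded (x : ℕ → Bool) (n₀ N : ℕ) :
    ∃ n ≥ n₀, N ≤ Encodable.encode ((List.range n).map x) := by
  have hinj : Function.Injective fun n : ℕ => Encodable.encode ((List.range (n₀ + n)).map x) := by
    intro m n h
    have := codes_inj x h
    omega
  obtain ⟨y, ⟨n, rfl⟩, hy⟩ := (Set.infinite_range_of_injective hinj).exists_gt N
  exact ⟨n₀ + n, by omega, hy.le⟩

theorem codes_large (x : ℕ → Bool) (n : ℕ) : ∃ j ∈ codes x, n < j := by
  obtain ⟨k, _, hk⟩ := codes_unbounded x 0 (n + 1)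
  exact ⟨_, ⟨k, rfl⟩, hk⟩

theorem codes_diff {x y : ℕ → Bool} (hxy : x ≠ y) (N : ℕ) :
    ∃ i, N ≤ i ∧ i ∈ codes x ∧ i ∉ codes y := by
  obtain ⟨t, ht⟩ := Function.ne_iff.1 hxy
  obtain ⟨n, hn, hN⟩ := codes_unbounded x (t + 1) N
  refine ⟨_, hN, ⟨n, rfl⟩, ?_⟩
  rintro ⟨n', hn'⟩
  have h1 := Encodable.encode_injective hn'
  have h2 : n' = n := by simpa using congrArg List.length h1
  subst h2
  have h3 := (List.map_inj_left.1 h1) t (List.mem_range.2 (by omega))
  exact ht h3.symm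

theorem codes_compl (x : ℕ → Bool) (n : ℕ) : ∃ i, n ≤ i ∧ i ∉ codes x := by
  have hne : (fun n => !(x n)) ≠ x := by
    intro h
    have := congrFun h 0
    simp at this
  obtain ⟨i, h1, _, h3⟩ := codes_diff hne n
  exact ⟨i, h1, h3⟩

theorem ballLEF_codes (x : ℕ → Bool) : BallLEF {gA (codes x), gB (codes x)} :=
  ballLEF _ (codes_compl x) (codes_large x)

theorem family {x y : ℕ → Bool} (K : ℕ)
    (h : ∀ n, 1 ≤ n → gr {gA (codes x), gB (codes x)} n ≤ gr {gA (codes y), gB (codes y)} (K * n)) :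
    x = y := by
  by_contra hxy
  exact incomparable (ballLEF_codes x) (codes_large y) (ballLEF_codes y) (codes_diff hxy) K h

end Pool.Agent.P8H61.LG
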