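import Pool.Agent.P8H61.LG.Basic

/-! Two far spots on a cycle look like one spot on the line. -/

set_option autoImplicit false

namespace Pool.Agent.P8H61.LG

/-- one spot on the line -/
def aZ : Equiv.Perm ℤ := Equiv.swap 0 1

/-- the translation of the line -/
def bZ : Equiv.Perm ℤ := Equiv.addRight 1

/-- two spots on a cycle -/
def sp (N d : ℕ) : Equiv.Perm (ZMod N) :=
  Equiv.swap 0 1 * Equiv.swap ((d - 1 : ℕ) : ZMod N) (d : ZMod N)

/-- the rotation of a cycle -/
def rot (N : ℕ) : Equiv.Perm (ZMod N) := Equiv.addRight 1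

@[simp] theorem rot_apply (N : ℕ) (x : ZMod N) : rot N x = x + 1 := rfl
@[simp] theorem bZ_apply (x : ℤ) : bZ x = x + 1 := rfl

theorem aZ_of_ne {z : ℤ} (h0 : z ≠ 0) (h1 : z ≠ 1) : aZ z = z :=
  Equiv.swap_apply_of_ne_of_ne h0 h1

@[simp] theorem aZ_zero : aZ 0 = 1 := Equiv.swap_apply_left _ _
@[simp] theorem aZ_one : aZ 1 = 0 := Equiv.swap_apply_right _ _

theorem aZ_near (z : ℤ) : |aZ z - z| ≤ 1 := by
  by_cases h0 : z = 0
  · subst h0; simp
  · by_cases h1 : z = 1
    · subst h1; simp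
    · rw [aZ_of_ne h0 h1]; simp

theorem chart {X : Type} (α β : Equiv.Perm X) (χ : ℤ → X) (h1 : ∀ z, β (χ z) = χ (z + 1)) (r : ℕ)
    (y : ℤ) (h2 : ∀ z, |z - y| ≤ r → α (χ z) = χ (aZ z)) (w : List Lt) (hw : w.length ≤ r) :
    evw α β w (χ y) = χ (evw aZ bZ w y) ∧ |evw aZ bZ w y - y| ≤ w.length := by
  induction w with
  | nil => simp
  | cons l w ih =>
    obtain ⟨ih1, ih2⟩ := ih (by simp at hw; omega)
    simp only [List.length_cons] at hw
    rw [evw_cons, evw_cons, Equiv.Perm.mul_apply, Equiv.Perm.mul_apply, ih1]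
    set y' := evw aZ bZ w y with hy'
    have h3 : |y' - y| ≤ (r : ℤ) := ih2.trans (by exact_mod_cast (by omega : w.length ≤ r))
    have hlen : ((l :: w).length : ℤ) = (w.length : ℤ) + 1 := by simp
    rw [hlen]
    cases l with
    | A =>
      refine ⟨h2 y' h3, ?_⟩
      have h4 := aZ_near y'
      change |aZ y' - y| ≤ _
      have : aZ y' - y = (aZ y' - y') + (y' - y) := by ring
      rw [this]
      calc _ ≤ |aZ y' - y'| + |y' - y| := abs_add_le _ _
        _ ≤ _ := by linarith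
    | B =>
      refine ⟨h1 y', ?_⟩
      change |y' + 1 - y| ≤ _
      have : y' + 1 - y = 1 + (y' - y) := by ring
      rw [this]
      calc _ ≤ |(1 : ℤ)| + |y' - y| := abs_add_le _ _
        _ ≤ _ := by simp; linarith
    | C =>
      constructor
      · change β⁻¹ (χ y') = χ (bZ⁻¹ y')
        have hb : bZ⁻¹ y' = y' - 1 := by
          rw [Equiv.Perm.inv_eq_iff_eq]; simp
        rw [hb, Equiv.Perm.inv_eq_iff_eq, h1]
        congr 1
        ring
      · change |bZ⁻¹ y' - y| ≤ _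
        have hb : bZ⁻¹ y' = y' - 1 := by
          rw [Equiv.Perm.inv_eq_iff_eq]; simp
        rw [hb]
        have : y' - 1 - y = -1 + (y' - y) := by ring
        rw [this]
        calc _ ≤ |(-1 : ℤ)| + |y' - y| := abs_add_le _ _
          _ ≤ _ := by simp; linarith

theorem cast_inj {N : ℕ} {u v : ℤ} (h : |v - u| < N) : (u : ZMod N) = (v : ZMod N) ↔ u = v := by
  rw [ZMod.intCast_eq_intCast_iff_dvd_sub]
  constructor
  · intro hd
    have := Int.eq_zero_of_abs_lt_dvd hd h
    omega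
  · rintro rfl
    simp

theorem cast_ne {N : ℕ} {u v : ℤ} (h : |v - u| < N) (huv : u ≠ v) :
    (u : ZMod N) ≠ (v : ZMod N) := fun e => huv ((cast_inj h).1 e)

section cyc

variable {N d : ℕ}

theorem sp_def' (hd : 1 ≤ d) : sp N d = Equiv.swap ((0 : ℤ) : ZMod N) ((1 : ℤ) : ZMod N) *
    Equiv.swap (((d : ℤ) - 1 : ℤ) : ZMod N) ((d : ℤ) : ZMod N) := by
  unfold sp
  congr 1
  · simp
  · congr 1
    · push_cast [Nat.cast_sub hd]
      rfl
    · norm_cast

theorem sp0 (hd : 2 ≤ d) (hdN : d ≤ N) (z : ℤ) (h1 : (d : ℤ) - N < z) (h2 : z < d - 1) :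
    sp N d (z : ZMod N) = ((aZ z : ℤ) : ZMod N) := by
  rw [sp_def' (by omega), Equiv.Perm.mul_apply]
  have e1 : (z : ZMod N) ≠ (((d : ℤ) - 1 : ℤ) : ZMod N) :=
    cast_ne (by rw [abs_lt]; constructor <;> omega) (by omega)
  have e2 : (z : ZMod N) ≠ ((d : ℤ) : ZMod N) :=
    cast_ne (by rw [abs_lt]; constructor <;> omega) (by omega)
  rw [Equiv.swap_apply_of_ne_of_ne e1 e2]
  by_cases h0 : z = 0
  · subst h0; rw [Equiv.swap_apply_left, aZ_zero]
  · by_cases h0' : z = 1
    · subst h0'; rw [Equiv.swap_apply_right, aZ_one]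
    · rw [aZ_of_ne h0 h0']
      have e3 : (z : ZMod N) ≠ ((0 : ℤ) : ZMod N) :=
        cast_ne (by rw [abs_lt]; constructor <;> omega) h0
      have e4 : (z : ZMod N) ≠ ((1 : ℤ) : ZMod N) :=
        cast_ne (by rw [abs_lt]; constructor <;> omega) h0'
      rw [Equiv.swap_apply_of_ne_of_ne e3 e4]

theorem sp1 (hd : 3 ≤ d) (hN : d < N) (z : ℤ) (h1 : 2 ≤ z + (d - 1)) (h2 : z + (d - 1) ≤ N - 1) :
    sp N d ((z + (d - 1) : ℤ) : ZMod N) = ((aZ z + (d - 1) : ℤ) : ZMod N) := by
  rw [sp_def' (by omega), Equiv.Perm.mul_apply]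
  by_cases h0 : z = 0
  · subst h0
    rw [aZ_zero, show (0 : ℤ) + ((d : ℤ) - 1) = (d : ℤ) - 1 by ring, Equiv.swap_apply_left,
      show (1 : ℤ) + ((d : ℤ) - 1) = (d : ℤ) by ring]
    refine Equiv.swap_apply_of_ne_of_ne ?_ ?_ <;>
      exact cast_ne (by rw [abs_lt]; constructor <;> omega) (by omega)
  · by_cases h0' : z = 1
    · subst h0'
      rw [aZ_one, show (1 : ℤ) + ((d : ℤ) - 1) = (d : ℤ) by ring, Equiv.swap_apply_right,
        show (0 : ℤ) + ((d : ℤ) - 1) = (d : ℤ) - 1 by ring]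
      refine Equiv.swap_apply_of_ne_of_ne ?_ ?_ <;>
        exact cast_ne (by rw [abs_lt]; constructor <;> omega) (by omega)
    · rw [aZ_of_ne h0 h0']
      have e1 : ((z + (d - 1) : ℤ) : ZMod N) ≠ (((d : ℤ) - 1 : ℤ) : ZMod N) :=
        cast_ne (by rw [abs_lt]; constructor <;> omega) (by omega)
      have e2 : ((z + (d - 1) : ℤ) : ZMod N) ≠ ((d : ℤ) : ZMod N) :=
        cast_ne (by rw [abs_lt]; constructor <;> omega) (by omega)
      rw [Equiv.swap_apply_of_ne_of_ne e1 e2]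
      refine Equiv.swap_apply_of_ne_of_ne ?_ ?_ <;>
        exact cast_ne (by rw [abs_lt]; constructor <;> omega) (by omega)

theorem far (r : ℕ) (w : List Lt) (hw : w.length ≤ r) (y : ℤ) (hy : r + 2 < |y|) :
    evw aZ bZ w y = evw aZ bZ w (r + 2) + (y - (r + 2)) := by
  have key := chart aZ bZ (fun z => z + (y - (r + 2))) (by intro z; simp; ring) r (r + 2) ?_ w hw
  · have := key.1
    rw [show ((r : ℤ) + 2) + (y - (r + 2)) = y by ring] at this
    exact this
  · intro z hz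
    rw [abs_le] at hz
    have hz1 : z ≠ 0 := by omega
    have hz2 : z ≠ 1 := by omega
    rw [aZ_of_ne hz1 hz2]
    apply aZ_of_ne
    · rcases lt_abs.1 hy with h | h <;> omega
    · rcases lt_abs.1 hy with h | h <;> omega

theorem iso_iff (r : ℕ) (hd : 4 * r + 8 ≤ d) (hN : 2 * d ≤ N) (w : List Lt) (hw : w.length ≤ r) :
    evw (sp N d) (rot N) w = 1 ↔ evw aZ bZ w = 1 := by
  have hb0 : ∀ z : ℤ, rot N ((z : ℤ) : ZMod N) = ((z + 1 : ℤ) : ZMod N) := by
    intro z; simp
  have hb1 : ∀ z : ℤ, rot N ((z + (d - 1) : ℤ) : ZMod N) = ((z + 1 + (d - 1) : ℤ) : ZMod N) := by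
    intro z; simp; ring
  have c0 : ∀ y : ℤ, (d : ℤ) - N < y - r → y + r < d - 1 →
      evw (sp N d) (rot N) w (y : ZMod N) = ((evw aZ bZ w y : ℤ) : ZMod N) ∧
        |evw aZ bZ w y - y| ≤ w.length := by
    intro y h1 h2
    refine chart (sp N d) (rot N) (fun z => (z : ZMod N)) hb0 r y ?_ w hw
    intro z hz
    rw [abs_le] at hz
    exact sp0 (by omega) (by omega) z (by omega) (by omega)
  have c1 : ∀ y : ℤ, 2 ≤ y - r + (d - 1) → y + r + (d - 1) ≤ N - 1 →
      evw (sp N d) (rot N) w ((y + (d - 1) : ℤ) : ZMod N) =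
        ((evw aZ bZ w y + (d - 1) : ℤ) : ZMod N) ∧ |evw aZ bZ w y - y| ≤ w.length := by
    intro y h1 h2
    refine chart (sp N d) (rot N) (fun z => ((z + (d - 1) : ℤ) : ZMod N)) hb1 r y ?_ w hw
    intro z hz
    rw [abs_le] at hz
    exact sp1 (by omega) (by omega) z (by omega) (by omega)
  constructor
  · intro h
    have near : ∀ y : ℤ, |y| ≤ r + 2 → evw aZ bZ w y = y := by
      intro y hy
      rw [abs_le] at hy
      obtain ⟨e1, e2⟩ := c0 y (by omega) (by omega)
      rw [h, Equiv.Perm.one_apply] at e1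
      refine ((cast_inj (N := N) ?_).1 e1).symm
      have : (w.length : ℤ) ≤ r := by exact_mod_cast hw
      have : (r : ℤ) < N := by omega
      linarith
    ext y
    rw [Equiv.Perm.one_apply]
    rcases le_or_gt |y| (r + 2) with hy | hy
    · exact near y hy
    · rw [far r w hw y hy, near (r + 2) (by rw [abs_of_nonneg (by positivity)])]
      ring
  · intro h
    have hN0 : NeZero N := ⟨by omega⟩
    ext x
    rw [Equiv.Perm.one_apply]
    obtain ⟨n, hn, rfl⟩ : ∃ n : ℕ, n < N ∧ (n : ZMod N) = x :=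
      ⟨x.val, ZMod.val_lt x, ZMod.natCast_zmod_val x⟩
    rcases le_or_gt (2 * n) d with h1 | h1
    · have := (c0 n (by omega) (by omega)).1
      rw [h, Equiv.Perm.one_apply] at this
      simpa using this
    · rcases le_or_gt (n + r + 1) N with h2 | h2
      · have := (c1 ((n : ℤ) - (d - 1)) (by omega) (by omega)).1
        rw [h, Equiv.Perm.one_apply] at this
        simpa using this
      · have := (c0 ((n : ℤ) - N) (by omega) (by omega)).1
        rw [h, Equiv.Perm.one_apply] at this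
        simpa using this

end cyc

end Pool.Agent.P8H61.LG
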