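import Pool.Agent.P8H61.LG.Par

/-! The lower bound for the LEF growth. -/

set_option autoImplicit false

namespace Pool.Agent.P8H61.LG

section words

variable {H K : Type} [Group H] [Group K]

/-- the commutator of `α` and its conjugate by `β ^ d` -/
def cw (α β : H) (d : ℕ) : H :=
  α * (β ^ d * α * (β ^ d)⁻¹) * α⁻¹ * (β ^ d * α * (β ^ d)⁻¹)⁻¹

/-- its conjugate by `β ^ s` -/
def ew (α β : H) (d s : ℕ) : H := β ^ s * cw α β d * (β ^ s)⁻¹

/-- and by `β ^ (s + 1)` -/
def fw (α β : H) (d s : ℕ) : H := β * ew α β d s * β⁻¹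

theorem map_ew (φ : H →* K) (α β : H) (d s : ℕ) :
    φ (ew α β d s) = ew (φ α) (φ β) d s := by
  simp [ew, cw]

theorem map_fw (φ : H →* K) (α β : H) (d s : ℕ) :
    φ (fw α β d s) = fw (φ α) (φ β) d s := by
  simp [fw, ew, cw]

theorem cw_of_comm {α β : H} {d : ℕ} (h : Commute α (β ^ d * α * (β ^ d)⁻¹)) :
    cw α β d = 1 := by
  unfold cw
  rw [h.eq]
  group

theorem ew_of_cw {α β : H} {d : ℕ} (h : cw α β d = 1) (s : ℕ) : ew α β d s = 1 := by
  simp [ew, h]

theorem fw_of_cw {α β : H} {d : ℕ} (h : cw α β d = 1) (s : ℕ) : fw α β d s = 1 := by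
  simp [fw, ew, h]

theorem comm4 {s0 s1 t0 t1 : H} (h1 : s1 * s1 = 1) (h2 : t0 * t0 = 1)
    (c01 : Commute s0 s1) (c02 : Commute s0 t0) (c03 : Commute s0 t1) (c13 : Commute s1 t1) :
    (s0 * s1) * (t0 * t1) * (s0 * s1)⁻¹ * (t0 * t1)⁻¹ = s1 * t0 * s1 * t0 := by
  have i1 : s1⁻¹ = s1 := inv_eq_of_mul_eq_one_right h1
  have i2 : t0⁻¹ = t0 := inv_eq_of_mul_eq_one_right h2
  have e1 : Commute s0 (s1 * (t0 * t1) * s1⁻¹) :=
    ((c01.mul_right (c02.mul_right c03)).mul_right c01.inv_right)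
  have e2 : (s0 * s1) * (t0 * t1) * (s0 * s1)⁻¹ = s1 * (t0 * t1) * s1⁻¹ := by
    have : (s0 * s1) * (t0 * t1) * (s0 * s1)⁻¹ = s0 * (s1 * (t0 * t1) * s1⁻¹) * s0⁻¹ := by group
    rw [this, e1.eq]
    group
  rw [e2]
  have e3 : t1 * s1⁻¹ * t1⁻¹ = s1⁻¹ := by
    rw [(c13.symm.inv_right).eq]
    group
  have : s1 * (t0 * t1) * s1⁻¹ * (t0 * t1)⁻¹ = s1 * t0 * (t1 * s1⁻¹ * t1⁻¹) * t0⁻¹ := by group
  rw [this, e3, i1, i2]

end words

section cyc

variable {N : ℕ}

theorem rot_pow_apply (s : ℕ) (x : ZMod N) : (rot N ^ s) x = x + s := by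
  induction s with
  | zero => simp
  | succ s ih =>
    rw [pow_succ', Equiv.Perm.mul_apply, ih, rot_apply]
    push_cast
    ring

theorem conj_swap (e : Equiv.Perm (ZMod N)) (x y : ZMod N) :
    e * Equiv.swap x y * e⁻¹ = Equiv.swap (e x) (e y) := by
  rw [Equiv.mul_swap_eq_swap_mul]
  group

theorem conj_swap_nat (s x y : ℕ) :
    rot N ^ s * Equiv.swap (x : ZMod N) (y : ZMod N) * (rot N ^ s)⁻¹ =
      Equiv.swap ((x + s : ℕ) : ZMod N) ((y + s : ℕ) : ZMod N) := by
  rw [conj_swap, rot_pow_apply, rot_pow_apply]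
  push_cast
  rfl

theorem conj_mul4 {H : Type} [Group H] (e a b c d : H) :
    e * (a * b * c * d) * e⁻¹ = (e * a * e⁻¹) * (e * b * e⁻¹) * (e * c * e⁻¹) * (e * d * e⁻¹) := by
  group

/-- a `3`-cycle -/
def tri (N x : ℕ) : Equiv.Perm (ZMod N) :=
  Equiv.swap (x : ZMod N) ((x + 1 : ℕ) : ZMod N) *
    Equiv.swap ((x + 1 : ℕ) : ZMod N) ((x + 2 : ℕ) : ZMod N) *
    Equiv.swap (x : ZMod N) ((x + 1 : ℕ) : ZMod N) *
    Equiv.swap ((x + 1 : ℕ) : ZMod N) ((x + 2 : ℕ) : ZMod N)

theorem conj_tri (s x : ℕ) : rot N ^ s * tri N x * (rot N ^ s)⁻¹ = tri N (x + s) := by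
  unfold tri
  rw [conj_mul4, conj_swap_nat, conj_swap_nat]
  simp only [show x + 1 + s = x + s + 1 by ring, show x + 2 + s = x + s + 2 by ring]

theorem tri_comm {x y : ℕ} (h : x + 2 < y) (hy : y + 2 < N) : Commute (tri N x) (tri N y) := by
  have c : ∀ a b : ℕ, a ≤ 1 → b ≤ 1 →
      Commute (Equiv.swap ((x + a : ℕ) : ZMod N) ((x + a + 1 : ℕ) : ZMod N))
        (Equiv.swap ((y + b : ℕ) : ZMod N) ((y + b + 1 : ℕ) : ZMod N)) := by
    intro a b ha hb
    exact swap_comm_nat (by omega) (by omega) (by omega) (by omega) (by omega) (by omega)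
      (by omega) (by omega)
  have c00 := c 0 0 (by omega) (by omega)
  have c01 := c 0 1 (by omega) (by omega)
  have c10 := c 1 0 (by omega) (by omega)
  have c11 := c 1 1 (by omega) (by omega)
  simp only [add_zero] at c00 c01 c10
  have k0 : Commute (Equiv.swap (x : ZMod N) ((x + 1 : ℕ) : ZMod N)) (tri N y) :=
    (((c00.mul_right c01).mul_right c00).mul_right c01)
  have k1 : Commute (Equiv.swap ((x + 1 : ℕ) : ZMod N) ((x + 2 : ℕ) : ZMod N)) (tri N y) :=
    (((c10.mul_right c11).mul_right c10).mul_right c11)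
  exact (((k0.mul_left k1).mul_left k0).mul_left k1)

theorem natne {u v : ℕ} (hu : u < N) (hv : v < N) (huv : u ≠ v) :
    (u : ZMod N) ≠ (v : ZMod N) := by
  intro h
  rw [ZMod.natCast_eq_natCast_iff', Nat.mod_eq_of_lt hu, Nat.mod_eq_of_lt hv] at h
  exact huv h

theorem tri_mid {x : ℕ} (hx : x + 2 < N) :
    tri N x ((x + 1 : ℕ) : ZMod N) = (x : ZMod N) := by
  have h1 : ((x + 2 : ℕ) : ZMod N) ≠ (x : ZMod N) := natne (by omega) (by omega) (by omega)
  have h2 : ((x + 2 : ℕ) : ZMod N) ≠ ((x + 1 : ℕ) : ZMod N) :=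
    natne (by omega) (by omega) (by omega)
  unfold tri
  simp only [Equiv.Perm.mul_apply]
  rw [Equiv.swap_apply_left, Equiv.swap_apply_of_ne_of_ne h1 h2, Equiv.swap_apply_right,
    Equiv.swap_apply_right]

theorem tri_low {x : ℕ} (hx : x + 2 < N) :
    tri N x (x : ZMod N) = ((x + 2 : ℕ) : ZMod N) := by
  have h1 : (x : ZMod N) ≠ ((x + 1 : ℕ) : ZMod N) := natne (by omega) (by omega) (by omega)
  have h2 : (x : ZMod N) ≠ ((x + 2 : ℕ) : ZMod N) := natne (by omega) (by omega) (by omega)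
  have h3 : ((x + 2 : ℕ) : ZMod N) ≠ (x : ZMod N) := h2.symm
  have h4 : ((x + 2 : ℕ) : ZMod N) ≠ ((x + 1 : ℕ) : ZMod N) :=
    natne (by omega) (by omega) (by omega)
  unfold tri
  simp only [Equiv.Perm.mul_apply]
  rw [Equiv.swap_apply_of_ne_of_ne h1 h2, Equiv.swap_apply_left, Equiv.swap_apply_left,
    Equiv.swap_apply_of_ne_of_ne h3 h4]

theorem tri_fix {x y : ℕ} (hx : x + 2 < N) (hy : y < N) (h0 : y ≠ x) (h1 : y ≠ x + 1)
    (h2 : y ≠ x + 2) : tri N x (y : ZMod N) = (y : ZMod N) := by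
  have e0 : (y : ZMod N) ≠ (x : ZMod N) := natne (by omega) (by omega) h0
  have e1 : (y : ZMod N) ≠ ((x + 1 : ℕ) : ZMod N) := natne (by omega) (by omega) h1
  have e2 : (y : ZMod N) ≠ ((x + 2 : ℕ) : ZMod N) := natne (by omega) (by omega) h2
  unfold tri
  simp only [Equiv.Perm.mul_apply, Equiv.swap_apply_of_ne_of_ne e0 e1,
    Equiv.swap_apply_of_ne_of_ne e1 e2]

theorem tri_not_comm {x : ℕ} (hx : x + 3 < N) :
    tri N (x + 1) * tri N x ≠ tri N x * tri N (x + 1) := by
  intro h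
  have := congrArg (fun e : Equiv.Perm (ZMod N) => e ((x + 1 : ℕ) : ZMod N)) h
  simp only [Equiv.Perm.mul_apply] at this
  rw [tri_mid (by omega), tri_low (x := x + 1) (by omega),
    tri_fix (x := x + 1) (y := x) (by omega) (by omega) (by omega) (by omega) (by omega),
    tri_fix (x := x) (y := x + 1 + 2) (by omega) (by omega) (by omega) (by omega) (by omega)] at this
  exact natne (by omega) (by omega) (by omega) this

theorem conj_sp (d e : ℕ) (_he : 1 ≤ e) : rot N ^ d * sp N e * (rot N ^ d)⁻¹ =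
    Equiv.swap ((d : ℕ) : ZMod N) ((d + 1 : ℕ) : ZMod N) *
      Equiv.swap ((e - 1 + d : ℕ) : ZMod N) ((e + d : ℕ) : ZMod N) := by
  rw [sp_eq]
  have : rot N ^ d * (Equiv.swap ((0 : ℕ) : ZMod N) ((1 : ℕ) : ZMod N) *
      Equiv.swap ((e - 1 : ℕ) : ZMod N) (e : ZMod N)) * (rot N ^ d)⁻¹ =
      (rot N ^ d * Equiv.swap ((0 : ℕ) : ZMod N) ((1 : ℕ) : ZMod N) * (rot N ^ d)⁻¹) *
      (rot N ^ d * Equiv.swap ((e - 1 : ℕ) : ZMod N) (e : ZMod N) * (rot N ^ d)⁻¹) := by group
  rw [this, conj_swap_nat, conj_swap_nat, Nat.zero_add, Nat.add_comm 1 d]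

/-- the commutator on its own cycle -/
theorem cw_main {d : ℕ} (hd : 6 ≤ d) (hN : 2 * d < N) :
    cw (sp N d) (rot N) d = tri N (d - 1) := by
  unfold cw
  rw [conj_sp d d (by omega), sp_eq]
  have e1 : (d - 1 + 1 : ℕ) = d := by omega
  have e2 : (d - 1 + 2 : ℕ) = d + 1 := by omega
  unfold tri
  rw [e1, e2]
  refine comm4 (Equiv.swap_mul_self _ _) (Equiv.swap_mul_self _ _) ?_ ?_ ?_ ?_
  · exact swap_comm_nat (by omega) (by omega) (by omega) (by omega) (by omega) (by omega)
      (by omega) (by omega)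
  · exact swap_comm_nat (by omega) (by omega) (by omega) (by omega) (by omega) (by omega)
      (by omega) (by omega)
  · exact swap_comm_nat (by omega) (by omega) (by omega) (by omega) (by omega) (by omega)
      (by omega) (by omega)
  · exact swap_comm_nat (by omega) (by omega) (by omega) (by omega) (by omega) (by omega)
      (by omega) (by omega)

/-- the commutator on another cycle -/
theorem cw_other {d e : ℕ} (hd : 2 ≤ d) (_he : 6 ≤ e) (hN : d + e < N) (h0 : e ≠ d)
    (h1 : e ≠ d + 1) (h2 : e ≠ d + 2) : cw (sp N e) (rot N) d = 1 := by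
  apply cw_of_comm
  rw [conj_sp d e (by omega), sp_eq]
  refine Commute.mul_left (Commute.mul_right ?_ ?_) (Commute.mul_right ?_ ?_)
  · exact swap_comm_nat (by omega) (by omega) (by omega) (by omega) (by omega) (by omega)
      (by omega) (by omega)
  · exact swap_comm_nat (by omega) (by omega) (by omega) (by omega) (by omega) (by omega)
      (by omega) (by omega)
  · exact swap_comm_nat (by omega) (by omega) (by omega) (by omega) (by omega) (by omega)
      (by omega) (by omega)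
  · exact swap_comm_nat (by omega) (by omega) (by omega) (by omega) (by omega) (by omega)
      (by omega) (by omega)

/-- the commutator on a short cycle -/
theorem cw_short {d e : ℕ} (hd : N ∣ d) : cw (sp N e) (rot N) d = 1 := by
  have h : rot N ^ d = 1 := by
    ext x
    rw [rot_pow_apply, (ZMod.natCast_eq_zero_iff d N).2 hd, add_zero]
    rfl
  apply cw_of_comm
  rw [h]
  simp

end cyc

section comps

variable {S : Set ℕ} {i : ℕ}

theorem cw_comp {k : ℕ} (hk : k < mm i) {p : ℕ × ℕ} (hp : p ≠ (i, k)) :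
    cw (aG S p) (bG S p) (dd i k) = 1 := by
  obtain ⟨x, κ⟩ := p
  by_cases h : x ∈ S ∧ κ < mm x
  · rw [aG_pos h.1 h.2, bG_pos h.1 h.2]
    rcases lt_trichotomy x i with hx | hx | hx
    · apply cw_short
      exact (NN_dvd hx).trans ⟨6 * (mm i + k), by unfold dd; ring⟩
    · subst hx
      have hκ : κ ≠ k := by
        rintro rfl
        exact hp rfl
      have h1 := dd_ge18 x k
      have h2 := dd_ge18 x κ
      have h3 := dd_lt hk
      have h4 := dd_lt h.2
      have h5 : NN x = 48 * (el x * mm x) := by unfold NN; ring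
      have h6 : ∃ u, dd x k = 6 * u := ⟨el x * (mm x + k), by unfold dd; ring⟩
      have h7 : ∃ u, dd x κ = 6 * u := ⟨el x * (mm x + κ), by unfold dd; ring⟩
      have h8 : dd x κ ≠ dd x k := by
        unfold dd
        intro e
        have he := el_pos x
        have : mm x + κ = mm x + k := Nat.eq_of_mul_eq_mul_left (by positivity) e
        omega
      obtain ⟨u, hu⟩ := h6
      obtain ⟨v, hv⟩ := h7
      exact cw_other (by omega) (by omega) (by omega) h8 (by omega) (by omega)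
    · have h1 := dd_ge18 i k
      have h3 := two_dd_le hk
      have h4 := dd_ge' hx κ
      have h5 := two_dd_le h.2
      have h6 := NN_pos i
      have h7 : 6 * NN i ≤ dd x κ := le_trans (by nlinarith) h4
      exact cw_other (by omega) (by omega) (by omega) (by omega) (by omega) (by omega)
  · rw [aG_neg h, bG_neg h]
    simp [cw]

theorem cw_comp_self {k : ℕ} (hi : i ∈ S) (hk : k < mm i) :
    cw (aG S (i, k)) (bG S (i, k)) (dd i k) = tri (NN i) (dd i k - 1) := by
  rw [aG_pos hi hk, bG_pos hi hk]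
  have h1 := dd_ge18 i k
  have h2 := dd_lt hk
  have h5 : NN i = 48 * (el i * mm i) := by unfold NN; ring
  exact cw_main (by omega) (by omega)

theorem ew_comp_self {k : ℕ} (hi : i ∈ S) (hk : k < mm i) (s : ℕ) :
    ew (aG S (i, k)) (bG S (i, k)) (dd i k) s = tri (NN i) (dd i k - 1 + s) := by
  unfold ew
  rw [cw_comp_self hi hk, bG_pos hi hk]
  exact conj_tri s _

theorem fw_comp_self {k : ℕ} (hi : i ∈ S) (hk : k < mm i) (s : ℕ) :
    fw (aG S (i, k)) (bG S (i, k)) (dd i k) s = tri (NN i) (dd i k - 1 + s + 1) := by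
  unfold fw
  rw [ew_comp_self hi hk, bG_pos hi hk]
  have := conj_tri (N := NN i) 1 (dd i k - 1 + s)
  rwa [pow_one] at this

end comps

/-- the index set -/
abbrev JJ (i : ℕ) : Type := Fin (mm i) × Fin (el i * mm i)

/-- the elements `e` -/
noncomputable def eE (S : Set ℕ) (i : ℕ) (j : JJ i) : Gam S :=
  ew (gA S) (gB S) (dd i j.1) (6 * j.2)

/-- the elements `f` -/
noncomputable def fF (S : Set ℕ) (i : ℕ) (j : JJ i) : Gam S :=
  fw (gA S) (gB S) (dd i j.1) (6 * j.2)

theorem eE_comp (S : Set ℕ) (i : ℕ) (j : JJ i) (p : ℕ × ℕ) :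
    (eE S i j : GG) p = ew (aG S p) (bG S p) (dd i j.1) (6 * j.2) :=
  map_ew ((Pi.evalMonoidHom _ p).comp (Gam S).subtype) (gA S) (gB S) _ _

theorem fF_comp (S : Set ℕ) (i : ℕ) (j : JJ i) (p : ℕ × ℕ) :
    (fF S i j : GG) p = fw (aG S p) (bG S p) (dd i j.1) (6 * j.2) :=
  map_fw ((Pi.evalMonoidHom _ p).comp (Gam S).subtype) (gA S) (gB S) _ _

theorem pos_bound {i : ℕ} (j : JJ i) : dd i j.1 + 6 * (j.2 : ℕ) + 6 < NN i := by
  have h1 := dd_lt j.1.2
  have h2 := j.2.2
  have h5 : NN i = 48 * (el i * mm i) := by unfold NN; ring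
  omega

theorem comm_main {S : Set ℕ} {i : ℕ} (hi : i ∈ S) (j j' : JJ i) (hj : j ≠ j') :
    fF S i j * eE S i j' = eE S i j' * fF S i j := by
  apply Subtype.ext
  funext p
  change (fF S i j : GG) p * (eE S i j' : GG) p = (eE S i j' : GG) p * (fF S i j : GG) p
  rw [eE_comp, fF_comp]
  by_cases hp : p = (i, (j'.1 : ℕ))
  · subst hp
    by_cases hk : j.1 = j'.1
    · rw [hk, ew_comp_self hi j'.1.2, fw_comp_self hi j'.1.2]
      have ht : (j.2 : ℕ) ≠ (j'.2 : ℕ) := by
        intro e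
        exact hj (Prod.ext hk (Fin.ext e))
      have b1 := pos_bound j
      rw [hk] at b1
      have b2 := pos_bound j'
      have b3 := dd_ge18 i j'.1
      rcases lt_or_gt_of_ne ht with h | h
      · exact (tri_comm (by omega) (by omega)).eq
      · exact (tri_comm (by omega) (by omega)).symm.eq
    · have hne : ((i, (j'.1 : ℕ)) : ℕ × ℕ) ≠ (i, (j.1 : ℕ)) := by
        intro e
        apply hk
        have := (Prod.mk.inj e).2
        exact Fin.ext this.symm
      rw [fw_of_cw (cw_comp j.1.2 hne), one_mul, mul_one]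
  · rw [ew_of_cw (cw_comp j'.1.2 hp), one_mul, mul_one]

theorem not_comm_main {S : Set ℕ} {i : ℕ} (hi : i ∈ S) (j : JJ i) :
    fF S i j * eE S i j ≠ eE S i j * fF S i j := by
  intro h
  have h' := congrFun (congrArg (fun x : Gam S => (x : GG)) h) (i, (j.1 : ℕ))
  change (fF S i j : GG) _ * (eE S i j : GG) _ = (eE S i j : GG) _ * (fF S i j : GG) _ at h'
  rw [eE_comp, fF_comp] at h'
  rw [ew_comp_self hi j.1.2, fw_comp_self hi j.1.2] at h'
  have b1 := pos_bound j
  exact tri_not_comm (by omega) h'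

theorem ew_ball {Γ : Type} [Group Γ] (a b : Γ) (d s : ℕ) :
    ew a b d s ∈ ball {a, b} (2 * s + 4 * d + 4) := by
  have ha : a ∈ ball ({a, b} : Set Γ) 1 := mem_ball_one (by simp)
  have hb : b ∈ ball ({a, b} : Set Γ) 1 := mem_ball_one (by simp)
  have hbd := pow_mem_ball hb d
  have hbs := pow_mem_ball hb s
  have h1 := mul_mem_ball (mul_mem_ball hbd ha) (inv_mem_ball hbd)
  have h2 := mul_mem_ball (mul_mem_ball (mul_mem_ball ha h1) (inv_mem_ball ha)) (inv_mem_ball h1)
  have h3 := mul_mem_ball (mul_mem_ball hbs h2) (inv_mem_ball hbs)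
  exact ball_mono (by omega) h3

theorem fw_ball {Γ : Type} [Group Γ] (a b : Γ) (d s : ℕ) :
    fw a b d s ∈ ball {a, b} (2 * s + 4 * d + 6) := by
  have hb : b ∈ ball ({a, b} : Set Γ) 1 := mem_ball_one (by simp)
  have h3 := mul_mem_ball (mul_mem_ball hb (ew_ball a b d s)) (inv_mem_ball hb)
  exact ball_mono (by omega) h3

theorem gr_lower {S : Set ℕ} {i : ℕ} (hi : i ∈ S) (hS : BallLEF {gA S, gB S}) :
    2 ^ (mm i * (el i * mm i)) ≤ gr {gA S, gB S} (132 * (el i * mm i)) := by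
  have h := gr_ge_of_pairing (J := JJ i) hS (n := 66 * (el i * mm i)) (eE S i) (fF S i) ?_ ?_
    (fun j j' hj => comm_main hi j j' hj) (fun j => not_comm_main hi j)
  · have hc : Fintype.card (JJ i) = mm i * (el i * mm i) := by
      rw [Fintype.card_prod, Fintype.card_fin, Fintype.card_fin]
    rw [hc] at h
    have e : 66 * (el i * mm i) + 66 * (el i * mm i) = 132 * (el i * mm i) := by ring
    rwa [e] at h
  · intro j
    refine ball_mono ?_ (ew_ball _ _ _ _)
    have h1 := dd_lt j.1.2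
    have h2 := j.2.2
    have h3 : 3 ≤ el i * mm i := by
      have a := el_pos i
      have b := mm_ge i
      nlinarith
    omega
  · intro j
    refine ball_mono ?_ (fw_ball _ _ _ _)
    have h1 := dd_lt j.1.2
    have h2 := j.2.2
    have h3 : 3 ≤ el i * mm i := by
      have a := el_pos i
      have b := mm_ge i
      nlinarith
    omega

end Pool.Agent.P8H61.LG
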