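import Pool.Agent.P8H61.LG.Iso

/-! Parameters, the groups, the upper bound for the LEF growth. -/

set_option autoImplicit false

namespace Pool.Agent.P8H61.LG

/-- the parameters `(ℓ_i, A_i)` -/
def par : ℕ → ℕ × ℕ
  | 0 => (1, 3)
  | i + 1 => (48 * (par i).1 * ((par i).2 + i),
      (par i).2 * ((48 * (par i).1 * ((par i).2 + i)).factorial) ^ ((par i).2 + i))

/-- `ℓ_i` -/
def el (i : ℕ) : ℕ := (par i).1
/-- `A_i` -/
def Am (i : ℕ) : ℕ := (par i).2
/-- the number of cycles of scale `i` -/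
def mm (i : ℕ) : ℕ := Am i + i
/-- the length of the cycles of scale `i` -/
def NN (i : ℕ) : ℕ := 48 * el i * mm i
/-- the distance of the two spots on the `k`-th cycle of scale `i` -/
def dd (i k : ℕ) : ℕ := 6 * el i * (mm i + k)

theorem el_succ (i : ℕ) : el (i + 1) = NN i := rfl
theorem Am_succ (i : ℕ) : Am (i + 1) = Am i * (NN i).factorial ^ mm i := rfl

theorem Am_ge (i : ℕ) : 3 ≤ Am i := by
  induction i with
  | zero => exact le_refl 3
  | succ i ih =>
    rw [Am_succ]
    exact ih.trans (Nat.le_mul_of_pos_right _ (pow_pos (Nat.factorial_pos _) _))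

theorem mm_ge (i : ℕ) : 3 ≤ mm i := (Am_ge i).trans (Nat.le_add_right _ _)

theorem le_mm (i : ℕ) : i ≤ mm i := Nat.le_add_left _ _

theorem el_pos (i : ℕ) : 1 ≤ el i := by
  induction i with
  | zero => exact le_refl 1
  | succ i ih =>
    rw [el_succ]
    have := mm_ge i
    unfold NN
    have : 0 < 48 * el i * mm i := by positivity
    omega

theorem NN_pos (i : ℕ) : 0 < NN i := by
  have h1 := el_pos i
  have h2 := mm_ge i
  unfold NN
  positivity

instance (i : ℕ) : NeZero (NN i) := ⟨(NN_pos i).ne'⟩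

theorem el_le_Am (i : ℕ) : el i ≤ Am i := by
  cases i with
  | zero => exact (by decide : (1 : ℕ) ≤ 3)
  | succ i =>
    rw [el_succ, Am_succ]
    calc NN i ≤ (NN i).factorial := Nat.self_le_factorial _
      _ ≤ (NN i).factorial ^ mm i := Nat.le_self_pow (by have := mm_ge i; omega) _
      _ ≤ _ := Nat.le_mul_of_pos_left _ (by have := Am_ge i; omega)

theorem el_le_mm (i : ℕ) : el i ≤ mm i := (el_le_Am i).trans (Nat.le_add_right _ _)

theorem NN_dvd {i j : ℕ} (h : i < j) : NN i ∣ el j := by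
  induction j with
  | zero => omega
  | succ j ih =>
    rcases Nat.lt_or_ge i j with h' | h'
    · rw [el_succ]
      unfold NN at *
      exact (ih h').trans ⟨48 * mm j, by ring⟩
    · have : i = j := by omega
      subst this
      exact ⟨1, by rw [el_succ, mul_one]⟩

theorem NN_le_el {i j : ℕ} (h : i < j) : NN i ≤ el j :=
  Nat.le_of_dvd (el_pos j) (NN_dvd h)

theorem Am_eq (i : ℕ) : Am i = 3 * ∏ x ∈ Finset.range i, (NN x).factorial ^ mm x := by
  induction i with
  | zero => rfl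
  | succ i ih => rw [Am_succ, Finset.prod_range_succ, ih]; ring

theorem dd_ge (i k : ℕ) : 6 * (el i * mm i) ≤ dd i k := by
  unfold dd
  nlinarith [Nat.zero_le (el i * k)]

theorem dd_lt {i k : ℕ} (hk : k < mm i) : dd i k < 12 * (el i * mm i) := by
  unfold dd
  have := el_pos i
  nlinarith [Nat.mul_lt_mul_of_pos_left hk this]

theorem two_dd_le {i k : ℕ} (hk : k < mm i) : 2 * dd i k ≤ NN i := by
  have := dd_lt hk
  unfold NN
  nlinarith

theorem dd_ge' {i j : ℕ} (h : i < j) (k : ℕ) : 6 * NN i * (i + 1) ≤ dd j k := by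
  refine le_trans ?_ (dd_ge j k)
  have h1 := NN_le_el h
  have h2 : i + 1 ≤ mm j := le_trans (by omega) (le_mm j)
  have := Nat.mul_le_mul h1 h2
  nlinarith

theorem dd_ge18 (i k : ℕ) : 18 ≤ dd i k := by
  refine le_trans ?_ (dd_ge i k)
  have h1 := el_pos i
  have h2 := mm_ge i
  nlinarith [Nat.mul_le_mul h1 h2]

/-! ### the groups -/

/-- the product of the symmetric groups of the cycles -/
abbrev GG : Type := (p : ℕ × ℕ) → Equiv.Perm (ZMod (NN p.1))

open Classical in
/-- the first generator -/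
noncomputable def aG (S : Set ℕ) : GG := fun p =>
  if p.1 ∈ S ∧ p.2 < mm p.1 then sp (NN p.1) (dd p.1 p.2) else 1

open Classical in
/-- the second generator -/
noncomputable def bG (S : Set ℕ) : GG := fun p =>
  if p.1 ∈ S ∧ p.2 < mm p.1 then rot (NN p.1) else 1

/-- the group -/
def Gam (S : Set ℕ) : Subgroup GG := Subgroup.closure {aG S, bG S}

/-- the first generator in the group -/
noncomputable def gA (S : Set ℕ) : Gam S := ⟨aG S, Subgroup.subset_closure (by simp)⟩
/-- the second generator in the group -/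
noncomputable def gB (S : Set ℕ) : Gam S := ⟨bG S, Subgroup.subset_closure (by simp)⟩

theorem closure_gens (S : Set ℕ) : Subgroup.closure ({gA S, gB S} : Set (Gam S)) = ⊤ := by
  have e : ({gA S, gB S} : Set (Gam S)) = ((↑) : Gam S → GG) ⁻¹' {aG S, bG S} := by
    ext x
    simp only [Set.mem_preimage, Set.mem_insert_iff, Set.mem_singleton_iff]
    refine or_congr ?_ ?_
    · exact ⟨fun h => congrArg Subtype.val h, fun h => Subtype.ext h⟩
    · exact ⟨fun h => congrArg Subtype.val h, fun h => Subtype.ext h⟩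
  rw [e]
  exact Subgroup.closure_closure_coe_preimage

theorem aG_pos {S : Set ℕ} {i k : ℕ} (hi : i ∈ S) (hk : k < mm i) :
    aG S (i, k) = sp (NN i) (dd i k) := by
  unfold aG
  exact if_pos ⟨hi, hk⟩

theorem bG_pos {S : Set ℕ} {i k : ℕ} (hi : i ∈ S) (hk : k < mm i) :
    bG S (i, k) = rot (NN i) := by
  unfold bG
  exact if_pos ⟨hi, hk⟩

theorem aG_neg {S : Set ℕ} {i k : ℕ} (h : ¬ (i ∈ S ∧ k < mm i)) : aG S (i, k) = 1 := by
  unfold aG
  exact if_neg h

theorem bG_neg {S : Set ℕ} {i k : ℕ} (h : ¬ (i ∈ S ∧ k < mm i)) : bG S (i, k) = 1 := by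
  unfold bG
  exact if_neg h

/-- swaps of natural numbers commute -/
theorem swap_comm_nat {N x y z w : ℕ} (hx : x < N) (hy : y < N) (hz : z < N) (hw : w < N)
    (h1 : x ≠ z) (h2 : x ≠ w) (h3 : y ≠ z) (h4 : y ≠ w) :
    Commute (Equiv.swap (x : ZMod N) (y : ZMod N)) (Equiv.swap (z : ZMod N) (w : ZMod N)) := by
  have key : ∀ {u v : ℕ}, u < N → v < N → u ≠ v → (u : ZMod N) ≠ (v : ZMod N) := by
    intro u v hu hv huv h
    rw [ZMod.natCast_eq_natCast_iff'] at h
    rw [Nat.mod_eq_of_lt hu, Nat.mod_eq_of_lt hv] at h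
    exact huv h
  apply Equiv.Perm.Disjoint.commute
  intro t
  by_cases ht : t = (x : ZMod N) ∨ t = (y : ZMod N)
  · right
    rcases ht with rfl | rfl
    · exact Equiv.swap_apply_of_ne_of_ne (key hx hz h1) (key hx hw h2)
    · exact Equiv.swap_apply_of_ne_of_ne (key hy hz h3) (key hy hw h4)
  · left
    rw [not_or] at ht
    exact Equiv.swap_apply_of_ne_of_ne ht.1 ht.2

theorem sp_eq (N d : ℕ) : sp N d = Equiv.swap ((0 : ℕ) : ZMod N) ((1 : ℕ) : ZMod N) *
    Equiv.swap ((d - 1 : ℕ) : ZMod N) (d : ZMod N) := by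
  unfold sp
  simp

theorem sp_sq {N d : ℕ} (hd : 3 ≤ d) (hN : d < N) : sp N d * sp N d = 1 := by
  have hc := swap_comm_nat (N := N) (x := 0) (y := 1) (z := d - 1) (w := d) (by omega) (by omega)
    (by omega) hN (by omega) (by omega) (by omega) (by omega)
  rw [sp_eq]
  rw [mul_assoc, ← mul_assoc (Equiv.swap ((d - 1 : ℕ) : ZMod N) (d : ZMod N)), ← hc.eq, mul_assoc,
    Equiv.swap_mul_self, mul_one, Equiv.swap_mul_self]

theorem aG_sq (S : Set ℕ) : aG S * aG S = 1 := by
  funext p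
  obtain ⟨i, k⟩ := p
  rw [Pi.mul_apply, Pi.one_apply]
  by_cases h : i ∈ S ∧ k < mm i
  · rw [aG_pos h.1 h.2]
    have h1 := dd_ge18 i k
    have h2 := two_dd_le h.2
    exact sp_sq (by omega) (by omega)
  · rw [aG_neg h, mul_one]

theorem gA_sq (S : Set ℕ) : gA S * gA S = 1 := Subtype.ext (aG_sq S)

/-! ### the upper bound -/

/-- the finite group -/
abbrev QQ (i d : ℕ) : Type :=
  ((x : Fin i) → Fin (mm x) → Equiv.Perm (ZMod (NN x))) × Equiv.Perm (ZMod (2 * d))

theorem evw_pi {ι : Type} {H : ι → Type} [∀ i, Group (H i)] (α β : (i : ι) → H i) (w : List Lt)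
    (i : ι) : evw α β w i = evw (α i) (β i) w :=
  map_evw (Pi.evalMonoidHom H i) α β w

theorem evw_one {H : Type} [Group H] (w : List Lt) : evw (1 : H) 1 w = 1 := by
  induction w with
  | nil => rfl
  | cons l w ih => rw [evw_cons, ih]; cases l <;> simp [ev]

theorem evw_coe {H : Type} [Group H] (K : Subgroup H) (α β : K) (w : List Lt) :
    ((evw α β w : K) : H) = evw (α : H) (β : H) w :=
  map_evw K.subtype α β w

theorem upper (S : Set ℕ) (i : ℕ) (hi : i ∉ S) (hS : ∃ j ∈ S, i < j) (r : ℕ)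
    (hr : 4 * (3 * r) + 8 ≤ 6 * NN i * (i + 1)) :
    ∃ π : Gam S → QQ i (4 * (3 * r) + 8), LocEmb (ball {gA S, gB S} r) π := by
  set d := 4 * (3 * r) + 8 with hd
  let a' : QQ i d := (fun x k => aG S ((x : ℕ), (k : ℕ)), sp (2 * d) d)
  let b' : QQ i d := (fun x k => bG S ((x : ℕ), (k : ℕ)), rot (2 * d))
  refine locEmb_of_words (gA S) (gB S) a' b' (gA_sq S) ?_ r ?_
  · apply Prod.ext
    · funext x k
      have := congrFun (aG_sq S) ((x : ℕ), (k : ℕ))
      exact this
    · exact sp_sq (by omega) (by omega)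
  · intro w hw
    have e1 : evw (gA S) (gB S) w = 1 ↔ ∀ p, evw (aG S p) (bG S p) w = 1 := by
      rw [Subtype.ext_iff, evw_coe, funext_iff]
      refine forall_congr' fun p => ?_
      rw [evw_pi]
      rfl
    have e2 : evw a' b' w = 1 ↔ (∀ (x : Fin i) (k : Fin (mm x)),
        evw (aG S ((x : ℕ), (k : ℕ))) (bG S ((x : ℕ), (k : ℕ))) w = 1) ∧
        evw (sp (2 * d) d) (rot (2 * d)) w = 1 := by
      rw [Prod.ext_iff]
      have f1 : (evw a' b' w).1 = evw a'.1 b'.1 w := map_evw (MonoidHom.fst _ _) a' b' w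
      have f2 : (evw a' b' w).2 = evw a'.2 b'.2 w := map_evw (MonoidHom.snd _ _) a' b' w
      rw [f1, f2, funext_iff]
      refine and_congr ?_ Iff.rfl
      refine forall_congr' fun x => ?_
      rw [evw_pi, funext_iff]
      refine forall_congr' fun k => ?_
      rw [evw_pi]
      rfl
    rw [e1, e2, iso_iff (3 * r) (le_refl _) (le_refl _) w hw]
    have large : ∀ j k, i < j → j ∈ S → k < mm j →
        (evw (aG S (j, k)) (bG S (j, k)) w = 1 ↔ evw aZ bZ w = 1) := by
      intro j k hij hj hk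
      rw [aG_pos hj hk, bG_pos hj hk]
      exact iso_iff (3 * r) (hr.trans (dd_ge' hij k)) (two_dd_le hk) w hw
    constructor
    · intro h
      refine ⟨fun x k => h _, ?_⟩
      obtain ⟨j, hj, hij⟩ := hS
      have hm : 0 < mm j := by have := mm_ge j; omega
      exact (large j 0 hij hj hm).1 (h (j, 0))
    · rintro ⟨h1, h2⟩ ⟨j, k⟩
      by_cases hjk : j ∈ S ∧ k < mm j
      · rcases lt_trichotomy j i with hj | hj | hj
        · exact h1 ⟨j, hj⟩ ⟨k, hjk.2⟩
        · exact absurd (hj ▸ hjk.1) hi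
        · exact (large j k hj hjk.1 hjk.2).2 h2
      · rw [aG_neg hjk, bG_neg hjk]
        exact evw_one w

theorem card_QQ (i d : ℕ) (hd : 0 < d) : Nat.card (QQ i d) ≤ Am i * (2 * d).factorial := by
  have : NeZero (2 * d) := ⟨by omega⟩
  rw [Nat.card_prod, Nat.card_pi]
  have h1 : Nat.card (Equiv.Perm (ZMod (2 * d))) = (2 * d).factorial := by
    rw [Nat.card_perm, Nat.card_zmod]
  have h2 : ∀ x : Fin i, Nat.card (Fin (mm x) → Equiv.Perm (ZMod (NN x))) =
      (NN x).factorial ^ mm x := by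
    intro x
    rw [Nat.card_fun, Nat.card_perm, Nat.card_zmod, Nat.card_eq_fintype_card, Fintype.card_fin]
  rw [h1]
  refine Nat.mul_le_mul_right _ ?_
  rw [Finset.prod_congr rfl (fun x _ => h2 x)]
  rw [Fin.prod_univ_eq_prod_range (fun x => (NN x).factorial ^ mm x) i, Am_eq]
  omega

instance (i d : ℕ) [NeZero (2 * d)] : Finite (QQ i d) := inferInstance

theorem gr_upper (S : Set ℕ) (i : ℕ) (hi : i ∉ S) (hS : ∃ j ∈ S, i < j) (r : ℕ)
    (hr : 4 * (3 * r) + 8 ≤ 6 * NN i * (i + 1)) :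
    gr {gA S, gB S} r ≤ Am i * (2 * (4 * (3 * r) + 8)).factorial := by
  obtain ⟨π, hπ⟩ := upper S i hi hS r hr
  have : NeZero (2 * (4 * (3 * r) + 8)) := ⟨by omega⟩
  exact (gr_le _ π hπ).trans (card_QQ _ _ (by omega))

theorem ballLEF (S : Set ℕ) (h : ∀ n, ∃ i, n ≤ i ∧ i ∉ S) (h' : ∀ n, ∃ j ∈ S, n < j) :
    BallLEF {gA S, gB S} := by
  intro n
  obtain ⟨i, hi, hiS⟩ := h (n + 1)
  have hr : 4 * (3 * n) + 8 ≤ 6 * NN i * (i + 1) := by
    have h1 : 48 ≤ NN i := by
      unfold NN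
      have h1 := el_pos i
      have h2 := mm_ge i
      nlinarith [Nat.mul_le_mul h1 h2]
    nlinarith
  obtain ⟨π, hπ⟩ := upper S i hiS (h' i) n hr
  have : NeZero (2 * (4 * (3 * n) + 8)) := ⟨by omega⟩
  exact ⟨_, inferInstance, inferInstance, π, hπ⟩

end Pool.Agent.P8H61.LG
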